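import Pool.Agent.EQC.Stmts

/-!
# Squad EQC, row STR: assembly of the structure of the items
-/

open SimpleGraph Finset
open Pool.Agent.Helper51_Equitable (edges nbrs vertexSum nb IsEquitableProper Nice mem_edges mem_nbrs)

namespace Pool.Agent.EQC.H62

open Pool.Agent.EQC

theorem cnt_eq {α : Type} [Fintype α] (p : α → Prop) : cnt p = Nat.card {a // p a} := by
  classical
  unfold cnt
  exact (Nat.subtype_card _ (by intro x; simp)).symm

/-- counting in a subtype -/
theorem cnt_sub {α : Type} [Fintype α] (p : α → Prop) [Fintype {a // p a}] (q : α → Prop) :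
    cnt (fun i : {a // p a} => q i.1) = cnt (fun a => p a ∧ q a) := by
  rw [cnt_eq, cnt_eq]
  exact Nat.card_congr (Equiv.subtypeSubtypeEquivSubtypeInter p q)

theorem cnt_le_of {α : Type} [Fintype α] (p : α → Prop) [Fintype {a // p a}] (q : α → Prop)
    {n : ℕ} (h : cnt (fun a => p a ∧ q a) ≤ n) : cnt (fun i : {a // p a} => q i.1) ≤ n := by
  rw [cnt_sub]
  exact h

theorem str (hdat : DatStmt) (hsel : SelStmt) (hwin : WinStmt) (hsup : SupStmt) (hedg : EdgStmt)
    (hfrv : FrvStmt) (hlod : LodStmt) (hlow : LowStmt) (hcni : CniStmt) : StrStmt := by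
  intro V _ hV G c D hB
  classical
  by_cases hH : ∃ v, Hi G D v
  · obtain ⟨d⟩ := hdat V G c D hB hH
    obtain ⟨s⟩ := hsel V G c D d hB
    obtain ⟨w⟩ := hwin V G c D d s hB
    obtain ⟨p⟩ := hsup V G c D d hB
    obtain ⟨e1, e2, e3, e4⟩ := hedg V G c D d s w p
    obtain ⟨f1, f2, f3, f4⟩ := hfrv V G c D d s w p
    obtain ⟨c1, c2⟩ := hcni V G c D d s hB
    have hfin : Fintype {i : Idx V c // Ok s i} := Fintype.ofFinite _
    refine ⟨{i : Idx V c // Ok s i}, hfin, ⟨?_⟩⟩
    exact
      { e0 := fun i => E0 p i.1
        e1 := fun i => E1 w p i.1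
        fr := fun i => Fr i.1
        rk := d.rk
        r0 := d.r0
        s0 := p.s0
        e0_mem := fun i => (e1 i.1 i.2).1
        e1_mem := fun i => (e1 i.1 i.2).2
        e0_inj := fun i j h => Subtype.ext (e2 i.1 j.1 i.2 j.2 h)
        e1_inj := fun i j h => Subtype.ext (e3 i.1 j.1 i.2 j.2 h)
        e01 := fun i j => e4 i.1 j.1 i.2 j.2
        fr_mem := fun i => ⟨(f1 i.1 i.2).2.1, (f1 i.1 i.2).2.2, (f1 i.1 i.2).1.2.1⟩
        rk_inj := d.rank.inj
        rk_first := d.rank.first
        plus := fun u hu hu0 => cnt_le_of (Ok s)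
          (fun i => d.rk u < d.rk (Fr i) ∧ u ∈ E0 p i ∧ u ∉ E1 w p i)
          (hlod V G c D d s w p u hu hu0).1
        minus := fun u hu hu0 => cnt_le_of (Ok s)
          (fun i => d.rk u < d.rk (Fr i) ∧ u ∈ E1 w p i ∧ u ∉ E0 p i)
          (hlod V G c D d s w p u hu hu0).2
        r0_e0 := fun i => f2 i.1 i.2
        r0_e1 := fun i => f3 i.1 i.2
        r0_few := cnt_le_of (Ok s) (fun i => d.r0 ∈ E1 w p i) f4
        count := fun v hv hv0 hq => by
          rw [cnt_sub (Ok s) (fun i => Fr i = v)]
          exact c1 v ⟨hv, hv0, hq⟩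
        low := fun u z hz hd hu h2 => by
          obtain ⟨e, he, h3, h4, h5, h6⟩ := hlow V G c D d s w p u z hz hd hu h2
          exact ⟨e, he, h3, h4, fun i => h5 i.1 i.2, fun i => h6 i.1 i.2⟩
        total := by
          have h1 : Fintype.card {i : Idx V c // Ok s i} = cnt (fun i : Idx V c => Ok s i) := by
            rw [cnt_eq, Nat.card_eq_fintype_card]
          rw [h1]
          exact c2 }
  · obtain ⟨v0⟩ := hV
    obtain ⟨rk, hrk1, hrk2⟩ : ∃ rk : V → ℕ, (∀ u v, rk u = rk v → u = v) ∧
        ∀ v, v ≠ v0 → rk v0 < rk v := by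
      refine ⟨fun v => if v = v0 then 0 else (Fintype.equivFin V v : ℕ) + 1, ?_, ?_⟩
      · intro u v h
        by_cases hu : u = v0
        · by_cases hv : v = v0
          · rw [hu, hv]
          · simp only [if_pos hu, if_neg hv] at h
            omega
        · by_cases hv : v = v0
          · simp only [if_neg hu, if_pos hv] at h
            omega
          · simp only [if_neg hu, if_neg hv] at h
            exact (Fintype.equivFin V).injective (Fin.ext (Nat.succ_injective h))
      · intro v hv
        simp only [if_true, if_neg hv]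
        exact Nat.succ_pos _
    refine ⟨Empty, inferInstance, ⟨?_⟩⟩
    exact
      { e0 := fun i => i.elim
        e1 := fun i => i.elim
        fr := fun i => i.elim
        rk := rk
        r0 := v0
        s0 := v0
        e0_mem := fun i => i.elim
        e1_mem := fun i => i.elim
        e0_inj := fun i => i.elim
        e1_inj := fun i => i.elim
        e01 := fun i => i.elim
        fr_mem := fun i => i.elim
        rk_inj := hrk1
        rk_first := hrk2
        plus := fun u hu => absurd ⟨u, hu⟩ hH
        minus := fun u hu => absurd ⟨u, hu⟩ hH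
        r0_e0 := fun i => i.elim
        r0_e1 := fun i => i.elim
        r0_few := by
          rw [cnt_eq]
          simp
        count := fun u hu => absurd ⟨u, hu⟩ hH
        low := fun u z hz _ _ h2 => by
          have hz' : z ∈ nbrs G u := mem_nbrs.2 hz
          obtain ⟨v', hv'⟩ : ((nbrs G u).erase z).Nonempty := by
            rw [← Finset.card_pos, Finset.card_erase_of_mem hz']
            unfold dg at h2
            omega
          obtain ⟨h3, h4⟩ := Finset.mem_erase.1 hv'
          have h5 : G.Adj u v' := mem_nbrs.1 h4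
          refine ⟨s(u, v'), mem_edges.2 h5, Sym2.mem_mk_left _ _, ?_, fun i => i.elim,
            fun i => i.elim⟩
          intro h6
          rcases Sym2.mem_iff.1 h6 with h7 | h7
          · exact hz.ne h7.symm
          · exact h3 h7.symm
        total := by simp }

end Pool.Agent.EQC.H62
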